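import Pool.Agent.TH346.CG.Four
import Pool.Agent.TH346.CG.Fin
import Pool.Agent.Q276.GS.Orb

/-!
# Gyárfás–Sumner for graphs with large abelian groups of automorphisms

Let a finite group `G` act on a finite graph `X` by automorphisms, with `k` orbits on the vertices,
and let `A` be an abelian subgroup of index `j` in `G`.  (For instance `X` is vertex-transitive and
`j` is the index of an abelian subgroup of a transitive group of automorphisms; or `G = A` is abelian
and `k` is arbitrary: multi-circulants, bi-Cayley graphs, Haar graphs.)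

* For every forest `F` there is a constant `C`, depending only on `F`, such that `X` is
  `C j k`-colourable if it contains neither an induced `F` nor a `K₄`.
* For every forest `F` and `r ≥ 1` there is a function `f` such that `χ(X) ≤ f(ω(X)) j k` if `X`
  contains no induced `F` and `A` has exponent dividing `r`.
-/

set_option autoImplicit false

namespace Pool.Agent.Results.MP_763321_co.AbelianFewOrbits

open SimpleGraph Pool.Agent.Q276.GS

theorem result :
    (∀ (m : ℕ) (F : SimpleGraph (Fin m)), F.IsAcyclic → ∃ C : ℕ,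
      ∀ (V G : Type) [Finite V] [Group G] [Finite G] [MulAction G V] (X : SimpleGraph V)
        (A : Subgroup G), (∀ (g : G) (u v : V), X.Adj u v → X.Adj (g • u) (g • v)) →
        (∀ a ∈ A, ∀ b ∈ A, a * b = b * a) → X.CliqueFree 4 → ¬ F.IsIndContained X →
        X.Colorable (C * (A.index * Nat.card (MulAction.orbitRel.Quotient G V)))) ∧
    (∀ (m : ℕ) (F : SimpleGraph (Fin m)), F.IsAcyclic → ∀ r : ℕ, 1 ≤ r → ∃ f : ℕ → ℕ,
      ∀ (V G : Type) [Finite V] [Group G] [Finite G] [MulAction G V] (X : SimpleGraph V)
        (A : Subgroup G), (∀ (g : G) (u v : V), X.Adj u v → X.Adj (g • u) (g • v)) →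
        (∀ a ∈ A, ∀ b ∈ A, a * b = b * a) → (∀ a ∈ A, a ^ r = 1) → ¬ F.IsIndContained X →
        X.Colorable (f X.cliqueNum *
          (A.index * Nat.card (MulAction.orbitRel.Quotient G V)))) := by
  classical
  refine ⟨?_, ?_⟩
  · intro m F hF
    obtain ⟨M, ⟨g⟩⟩ := Pool.Agent.TH283.CG.forest_cube F hF
    obtain ⟨C, hC⟩ := Pool.Agent.TH346.CG.four_cube M
    refine ⟨C, ?_⟩
    intro V G _ _ _ _ X A haut hcomm h4 hind
    letI : CommGroup A := { mul_comm := fun a b => Subtype.ext (hcomm a.1 a.2 b.1 b.2) }
    have h1 := colorable_comm (Γ := A) X (fun a u v h => haut a.1 u v h) C (by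
      intro H S ⟨φ⟩
      have := Fintype.ofFinite (Additive (A ⧸ H))
      refine hC (Additive (A ⧸ H)) S (CliqueFree.comap ⟨φ.toCopy⟩ h4) ⟨fun e => hind ⟨?_⟩⟩
      exact (g.trans e).trans φ)
    exact h1.mono (Nat.mul_le_mul_left C (card_orbits_le A))
  · intro m F hF r hr
    obtain ⟨M, ⟨g⟩⟩ := Pool.Agent.TH283.CG.forest_cube F hF
    obtain ⟨f, hf⟩ := Pool.Agent.TH346.CG.exp_cube M r hr
    refine ⟨fun k => (Finset.range (k + 1)).sup f, ?_⟩
    intro V G _ _ _ _ X A haut hcomm hexp hind
    letI : CommGroup A := { mul_comm := fun a b => Subtype.ext (hcomm a.1 a.2 b.1 b.2) }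
    have h1 := colorable_comm (Γ := A) X (fun a u v h => haut a.1 u v h)
      ((Finset.range (X.cliqueNum + 1)).sup f) (by
      intro H S ⟨φ⟩
      have := Fintype.ofFinite (Additive (A ⧸ H))
      have := Fintype.ofFinite V
      have h2 : ∀ x : Additive (A ⧸ H), r • x = 0 := by
        intro x
        obtain ⟨a, ha⟩ := QuotientGroup.mk_surjective x.toMul
        have hx : x = Additive.ofMul (QuotientGroup.mk a) := by rw [ha]; rfl
        have ha1 : a ^ r = 1 := Subtype.ext (hexp a.1 a.2)
        rw [hx, ← ofMul_pow, ← QuotientGroup.mk_pow, ha1, QuotientGroup.mk_one, ofMul_one]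
      have h3 := hf (Additive (A ⧸ H)) S h2 ⟨fun e => hind ⟨(g.trans e).trans φ⟩⟩
      refine h3.mono ?_
      have h5 : (addCayley S).cliqueNum ≤ X.cliqueNum := by
        obtain ⟨s, hs⟩ := (addCayley S).exists_isNClique_cliqueNum
        have h6 : X.IsClique (s.map φ.toEmbedding : Finset V) := by
          intro x hx y hy hxy
          rw [Finset.mem_coe, Finset.mem_map] at hx hy
          obtain ⟨a, ha, rfl⟩ := hx
          obtain ⟨b, hb, rfl⟩ := hy
          have : a ≠ b := fun e => hxy (by rw [e])
          exact φ.map_adj_iff.2 (hs.isClique ha hb this)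
        have h7 := h6.card_le_cliqueNum
        rwa [Finset.card_map, hs.card_eq] at h7
      exact Finset.le_sup (f := f) (Finset.mem_range.2 (Nat.lt_succ_of_le h5)))
    exact h1.mono (Nat.mul_le_mul_left _ (card_orbits_le A))

end Pool.Agent.Results.MP_763321_co.AbelianFewOrbits
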