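import Pool.Agent.TH346.CG.Four
import Pool.Agent.TH669.AD.Free
import Pool.Agent.Q276.GS.Orb

/-!
# Gyárfás–Sumner with a polylogarithmic bound for groups of almost all orders

There are constants `C(F)` such that for every `η > 0` there is `K` with: for all `x ≥ 8`, `s ≥ 1`
all but at most `η x` of the integers `m ≤ x` have the following property.  Let `G` be ANY finite
group of order at most `s m` which acts by automorphisms on a finite graph `X` such that all orbits
on the vertices have `m` elements (for instance a vertex-transitive graph with `m` vertices and a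
transitive group with stabilisers of order at most `s`; for `s = 1` every Cayley graph of every
group of order `m`).  If `X` has no clique with four vertices and does not contain the forest `F` as
an induced subgraph, then `m χ(X) ≤ C(F) (s log x) ^ K |X|`, that is, `χ(X)` is at most
`C(F) (s log x) ^ K` times the number of orbits.

So the vertex-transitive counterexamples to the Gyárfás–Sumner conjecture with clique number at most
three and small stabilisers have, for almost all orders `n`, at most polylogarithmic chromatic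
number `(log n) ^ K`.

Proof.  For most `m` each such group has a cyclic subgroup of order at least `m / (s log x) ^ K`
which acts freely (theorem of the starting files, `TH669.AD`); each of its orbits induces a Cayley
graph of a cyclic group, to which the starting theorem `AbelianCayley` applies.
-/

set_option autoImplicit false

namespace Pool.Agent.Results.MP_763321_co.AlmostAllOrders

open SimpleGraph Pool.Agent.Q276.GS

/-- `Bound C m s B`: the bound for all forests `F`, all finite graphs `X` without `K₄` and without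
induced `F` and all finite groups `G` of order at most `s m` acting by automorphisms such that all
orbits on the vertices have `m` elements. -/
def Bound (C : ∀ q : ℕ, SimpleGraph (Fin q) → ℕ) (m s : ℕ) (B : ℝ) : Prop :=
  ∀ (q : ℕ) (F : SimpleGraph (Fin q)), F.IsAcyclic →
    ∀ (V : Type) [Finite V] [Nonempty V] (X : SimpleGraph V) (G : Type) [Group G] [Finite G]
      [MulAction G V], Nat.card G ≤ s * m → (∀ v : V, (MulAction.orbit G v).ncard = m) →
      (∀ (a : G) (u v : V), X.Adj u v → X.Adj (a • u) (a • v)) →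
      X.CliqueFree 4 → ¬ F.IsIndContained X →
      ∃ N : ℕ, X.Colorable N ∧ (m : ℝ) * N ≤ C q F * B * (Nat.card V : ℝ)

theorem result : ∃ C : ∀ q : ℕ, SimpleGraph (Fin q) → ℕ,
    ∀ η : ℝ, 0 < η → ∃ K : ℕ, ∀ x s : ℕ, 8 ≤ x → 1 ≤ s →
      ({m : ℕ | 1 ≤ m ∧ m ≤ x ∧ ¬ Bound C m s ((s * Real.log x) ^ K)}.ncard : ℝ) ≤ η * x := by
  classical
  have hF : ∀ (q : ℕ) (F : SimpleGraph (Fin q)), ∃ C : ℕ, F.IsAcyclic →
      ∀ (Γ : Type) [AddCommGroup Γ] [Fintype Γ] (S : Set Γ), (addCayley S).CliqueFree 4 →
      ¬ F.IsIndContained (addCayley S) → (addCayley S).Colorable C := by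
    intro q F
    by_cases hF : F.IsAcyclic
    · obtain ⟨M, ⟨g⟩⟩ := Pool.Agent.TH283.CG.forest_cube F hF
      obtain ⟨C, hC⟩ := Pool.Agent.TH346.CG.four_cube M
      exact ⟨C, fun _ Γ _ _ S h4 hind => hC Γ S h4 ⟨fun e => hind ⟨g.trans e⟩⟩⟩
    · exact ⟨0, fun h => absurd h hF⟩
  choose C hC using hF
  refine ⟨C, fun η hη => ?_⟩
  obtain ⟨K, hK⟩ := Pool.Agent.TH669.AD.few_bad_pow η hη
  refine ⟨K, fun x s hx hs => ?_⟩
  obtain ⟨y, hsy, hU, hy⟩ := hK x s hx hs
  refine le_trans ?_ hy
  have hfin : {m : ℕ | 1 ≤ m ∧ m ≤ x ∧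
        ¬ Pool.Agent.TH669.AD.GoodDeg y s (((s : ℝ) * Real.log x) ^ K) m}.Finite :=
    (Set.finite_Icc 1 x).subset fun n hn => ⟨hn.1, hn.2.1⟩
  refine Nat.cast_le.2 (Set.ncard_le_ncard ?_ hfin)
  rintro m ⟨h1, h2, h3⟩
  refine ⟨h1, h2, fun hg => h3 ?_⟩
  intro q F hFa V _ _ X G _ _ _ hG horb haut h4 hind
  obtain ⟨c, hfree, hc⟩ := Pool.Agent.TH669.AD.exists_free hsy hg h1 G V horb hG
  have hcomm : ∀ a b : Subgroup.zpowers c, a * b = b * a := by
    intro a b
    obtain ⟨i, hi⟩ := Subgroup.mem_zpowers_iff.1 a.2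
    obtain ⟨j, hj⟩ := Subgroup.mem_zpowers_iff.1 b.2
    apply Subtype.ext
    rw [Subgroup.coe_mul, Subgroup.coe_mul, ← hi, ← hj, ← zpow_add, ← zpow_add, add_comm]
  have hfree' : ∀ (g : Subgroup.zpowers c) (v : V), g • v = v → g = 1 :=
    fun g v hv => Subtype.ext (hfree g.1 g.2 v hv)
  have hcard := card_free (Subgroup.zpowers c) V hfree'
  set t := Nat.card (MulAction.orbitRel.Quotient (Subgroup.zpowers c) V) with ht
  letI : CommGroup (Subgroup.zpowers c) := { mul_comm := hcomm }
  have hcol := colorable_comm (Γ := Subgroup.zpowers c) X (fun a u v h => haut a.1 u v h) (C q F)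
    (by
      intro H S ⟨φ⟩
      have := Fintype.ofFinite (Additive (Subgroup.zpowers c ⧸ H))
      refine hC q F hFa (Additive (Subgroup.zpowers c ⧸ H)) S (CliqueFree.comap ⟨φ.toCopy⟩ h4) ?_
      rintro ⟨e⟩
      exact hind ⟨e.trans φ⟩)
  refine ⟨C q F * t, hcol, ?_⟩
  -- `m t ≤ U n`
  have hmt : (m : ℝ) * t ≤ ((s : ℝ) * Real.log x) ^ K * (Nat.card V : ℝ) := by
    rw [hcard]
    push_cast
    have ht0 : (0 : ℝ) ≤ t := Nat.cast_nonneg _
    nlinarith [mul_le_mul_of_nonneg_right hc ht0]
  push_cast
  have hC0 : (0 : ℝ) ≤ (C q F : ℝ) := Nat.cast_nonneg _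
  nlinarith [mul_le_mul_of_nonneg_left hmt hC0]

end Pool.Agent.Results.MP_763321_co.AlmostAllOrders
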