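import Pool.Agent.TH253.GS.Main

/-!
# Gyárfás–Sumner for graphs that are covered by few parts without a large induced half-graph

The half-graph of order `n` is the bipartite graph with vertices `a_0, …, a_(n-1)`,
`b_0, …, b_(n-1)` in which `a_i` and `b_j` are adjacent if and only if `i ≤ j`.

For every forest `F` and every `n` there is a function `f` such that the following holds for every
finite graph `G` without induced `F` and every partition of its vertices into `c` classes: if no class
induces a subgraph which contains the half-graph of order `n` as an induced subgraph, then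
`χ(G) ≤ c f(ω(G))`. With `c = 1`: the class of the graphs with no induced `F` and no induced
half-graph of order `n` is `χ`-bounded.
-/

set_option autoImplicit false

namespace Pool.Agent.Results.MP_763321_co.InducedHalfGraphs

/-- The half-graph: `a_i` (`Sum.inl i`) and `b_j` (`Sum.inr j`) are adjacent iff `i ≤ j`. -/
def HalfGraph (n : ℕ) : SimpleGraph (Fin n ⊕ Fin n) where
  Adj x y := (∃ i j, x = Sum.inl i ∧ y = Sum.inr j ∧ i ≤ j) ∨
    (∃ i j, y = Sum.inl i ∧ x = Sum.inr j ∧ i ≤ j)
  symm := ⟨fun _ _ h => h.symm⟩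
  loopless := ⟨by
    rintro x (⟨i, j, h1, h2, _⟩ | ⟨i, j, h1, h2, _⟩)
    · rw [h1] at h2
      cases h2
    · rw [h1] at h2
      cases h2⟩

theorem result :
    -- partitions into `c` classes
    (∀ (m n : ℕ) (F : SimpleGraph (Fin m)), F.IsAcyclic →
      ∃ f : ℕ → ℕ, ∀ (V : Type) [Finite V] (G : SimpleGraph V) (c : ℕ) (cls : V → Fin c),
        (∀ i, ¬ (HalfGraph n).IsIndContained (G.induce {v | cls v = i})) →
        ¬ F.IsIndContained G → G.chromaticNumber ≤ (c * f G.cliqueNum : ℕ)) ∧
    -- one class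
    (∀ (m n : ℕ) (F : SimpleGraph (Fin m)), F.IsAcyclic →
      ∃ f : ℕ → ℕ, ∀ (V : Type) [Finite V] (G : SimpleGraph V),
        ¬ (HalfGraph n).IsIndContained G →
        ¬ F.IsIndContained G → G.chromaticNumber ≤ f G.cliqueNum) := by
  have h1 : ∀ (m n : ℕ) (F : SimpleGraph (Fin m)), F.IsAcyclic →
      ∃ f : ℕ → ℕ, ∀ (V : Type) [Finite V] (G : SimpleGraph V) (c : ℕ) (cls : V → Fin c),
        (∀ i, ¬ (HalfGraph n).IsIndContained (G.induce {v | cls v = i})) →
        ¬ F.IsIndContained G → G.chromaticNumber ≤ (c * f G.cliqueNum : ℕ) := by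
    intro m n F hF
    obtain ⟨f, hf⟩ := Pool.Agent.TH253.GS.main_induced m n F hF
    refine ⟨f, fun V _ G c cls h hFG => ?_⟩
    have := Fintype.ofFinite V
    exact hf V G c cls (fun i hi => h i hi) hFG
  refine ⟨h1, ?_⟩
  intro m n F hF
  obtain ⟨f, hf⟩ := h1 m n F hF
  refine ⟨f, fun V _ G h hFG => ?_⟩
  have h2 := hf V G 1 (fun _ => 0) (fun i => ?_) hFG
  · rwa [one_mul] at h2
  · rintro ⟨g⟩
    exact h ⟨g.trans (SimpleGraph.Embedding.induce _)⟩

end Pool.Agent.Results.MP_763321_co.InducedHalfGraphs
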