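import Pool.Agent.TH346.CG.Four
import Pool.Agent.TH669.AD.Free
import Pool.Agent.Q276.GS.Orb
import Pool.Agent.Q54.OD.Use

/-!
# Gyárfás–Sumner for groups: few exceptional orders, all orders in short windows

There are constants `C(F)` for which we consider the following property of `m`. Let `G` be ANY finite group of order at
most `s m` which acts by automorphisms on a finite graph `X` such that all orbits on the vertices have `m` elements. If
`X` has no clique with four vertices and does not contain the forest `F` as an induced subgraph, then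
`m χ(X) ≤ C(F) (s log m) ^ (K log log m) |X|`. For the Cayley graphs of all groups of order `m` the bound is
`χ(X) ≤ C(F) (log m) ^ (K log log m)`.

1. For every `A` there is `K` such that this holds for all `m ≤ x` with at most `x / log ^ A x` exceptions, for all `s`
   simultaneously; so it holds also for almost all `m` of every set with at least `x / log ^ B x` elements up to `x`, for
   instance for almost all `m = p - 1`, `p` prime.
2. For `0 < θ < 1` and all real `y ∈ [N ^ (1 - θ), 2 N ^ (1 - θ)]` outside a set of measure at most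
   `N ^ (1 - θ - κ)` it holds for ALL `m` in the windows of radius `log ^ A N` around the multiples `k y`,
   `k ≤ N ^ θ`, with at most `N ^ θ / log ^ U N` exceptional `k`.
3. Let `b k ≥ exp (k ^ δ)` be integers, for instance `b k = 2 ^ k`. For almost every real `α > 0` and all large `k` it
   holds for ALL `m` in the window of radius `(log (b k)) ^ A` around `α b k`.

From Mathlib: `volume`: the Lebesgue measure; `∀ᵐ α : ℝ`: for almost all real `α`; `∀ᶠ k in atTop`: for all large `k`.

Proof. For most `m` the primes `p > y = (s log m) ^ O(1)` which divide `m` divide it only once and no divisor `> 1` of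
the order of the group is congruent to `1` modulo such a `p`; the product of the Sylow subgroups for these primes is a
cyclic group which acts freely (starting files, `TH669.AD`), and the theorem of the starting files for abelian groups
applies. New is a bound with `log ^ A x` saved for the number of exceptions, uniformly in `s`, from an Euler product
estimate for the part of `m` composed of the primes `p ≤ y`. The windows are treated by the count of the elements of
arbitrary sparse sets near the multiples of real numbers (starting files, `Pool.Agent.H438R2.DL`, in the form of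
helper319, `Pool.Agent.Q319.DR`).
-/

set_option autoImplicit false

namespace Pool.Agent.Results.MP_763321_co.OrdersInWindows

open Filter MeasureTheory

open SimpleGraph Pool.Agent.Q276.GS

/-- `Bound C m s B`: the bound for all forests `F`, all finite graphs `X` without `K₄` and without
induced `F` and all finite groups `G` of order at most `s m` acting by automorphisms such that all
orbits on the vertices have `m` elements. -/
def Bound (C : ∀ q : ℕ, SimpleGraph (Fin q) → ℕ) (m s : ℕ) (B : ℝ) : Prop :=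
  ∀ (q : ℕ) (F : SimpleGraph (Fin q)), F.IsAcyclic →
    ∀ (V : Type) [Finite V] [Nonempty V] (X : SimpleGraph V) (G : Type) [Group G] [Finite G]
      [MulAction G V], Nat.card G ≤ s * m → (∀ v : V, (MulAction.orbit G v).ncard = m) →
      (∀ (a : G) (u v : V), X.Adj u v → X.Adj (a • u) (a • v)) →
      X.CliqueFree 4 → ¬ F.IsIndContained X →
      ∃ N : ℕ, X.Colorable N ∧ (m : ℝ) * N ≤ C q F * B * (Nat.card V : ℝ)

/-- The bound holds for all `s ≥ 1`, with `B = (s log m) ^ (K log log m)`. -/
def Good (C : ∀ q : ℕ, SimpleGraph (Fin q) → ℕ) (K m : ℕ) : Prop :=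
  ∀ s : ℕ, 1 ≤ s → Bound C m s ((s * Real.log m) ^ ((K : ℝ) * Real.log (Real.log m)))

open Classical in
/-- The number of the `k` with `1 ≤ k ≤ X` for which not all natural numbers `m` at a distance of at most `w` from `k y`
have the property `P`. -/
noncomputable def exceptions (X y w : ℝ) (P : ℕ → Prop) : ℕ :=
  ((Finset.Icc 1 ⌊X⌋₊).filter (fun k : ℕ => ∃ n : ℕ, |(n : ℝ) - k * y| ≤ w ∧ ¬ P n)).card

lemma few : ∃ C : ∀ q : ℕ, SimpleGraph (Fin q) → ℕ, Pool.Agent.Q54.OD.Few (Good C) := by
  classical
  have hF : ∀ (q : ℕ) (F : SimpleGraph (Fin q)), ∃ C : ℕ, F.IsAcyclic →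
      ∀ (Γ : Type) [AddCommGroup Γ] [Fintype Γ] (S : Set Γ), (addCayley S).CliqueFree 4 →
      ¬ F.IsIndContained (addCayley S) → (addCayley S).Colorable C := by
    intro q F
    by_cases hF : F.IsAcyclic
    · obtain ⟨M, ⟨g⟩⟩ := Pool.Agent.TH283.CG.forest_cube F hF
      obtain ⟨C, hC⟩ := Pool.Agent.TH346.CG.four_cube M
      exact ⟨C, fun _ Γ _ _ S h4 hind => hC Γ S h4 ⟨fun e => hind ⟨g.trans e⟩⟩⟩
    · exact ⟨0, fun h => absurd h hF⟩
  choose C hC using hF
  refine ⟨C, Pool.Agent.Q54.OD.few_of (Good C) fun K m hK hm hg => ?_⟩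
  intro s hs q F hFa V _ _ X G _ _ _ hG horb haut h4 hind
  obtain ⟨y, hsy, hgd⟩ := hg s hs
  have hU := Pool.Agent.Q54.OD.two_le_loss hK hs hm
  obtain ⟨c, hfree, hc⟩ := Pool.Agent.TH669.AD.exists_free hsy hgd (by omega) G V horb hG
  have hcomm : ∀ a b : Subgroup.zpowers c, a * b = b * a := by
    intro a b
    obtain ⟨i, hi⟩ := Subgroup.mem_zpowers_iff.1 a.2
    obtain ⟨j, hj⟩ := Subgroup.mem_zpowers_iff.1 b.2
    apply Subtype.ext
    rw [Subgroup.coe_mul, Subgroup.coe_mul, ← hi, ← hj, ← zpow_add, ← zpow_add, add_comm]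
  have hfree' : ∀ (g : Subgroup.zpowers c) (v : V), g • v = v → g = 1 :=
    fun g v hv => Subtype.ext (hfree g.1 g.2 v hv)
  have hcard := card_free (Subgroup.zpowers c) V hfree'
  set t := Nat.card (MulAction.orbitRel.Quotient (Subgroup.zpowers c) V) with ht
  let _ : CommGroup (Subgroup.zpowers c) := { mul_comm := hcomm }
  have hcol := colorable_comm (Γ := Subgroup.zpowers c) X (fun a u v h => haut a.1 u v h) (C q F)
    (by
      intro H S ⟨φ⟩
      have := Fintype.ofFinite (Additive (Subgroup.zpowers c ⧸ H))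
      refine hC q F hFa (Additive (Subgroup.zpowers c ⧸ H)) S (CliqueFree.comap ⟨φ.toCopy⟩ h4) ?_
      rintro ⟨e⟩
      exact hind ⟨e.trans φ⟩)
  refine ⟨C q F * t, hcol, ?_⟩
  have hmt : (m : ℝ) * t ≤ Pool.Agent.Q54.OD.loss K s m * (Nat.card V : ℝ) := by
    rw [hcard]
    push_cast
    have ht0 : (0 : ℝ) ≤ t := Nat.cast_nonneg _
    nlinarith [mul_le_mul_of_nonneg_right hc ht0]
  have hC0 : (0 : ℝ) ≤ (C q F : ℝ) := Nat.cast_nonneg _
  have h9 := mul_le_mul_of_nonneg_left hmt hC0
  push_cast
  calc (m : ℝ) * (C q F * t) = C q F * (m * t) := by ring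
    _ ≤ C q F * (Pool.Agent.Q54.OD.loss K s m * (Nat.card V : ℝ)) := h9
    _ = _ := by
      unfold Pool.Agent.Q54.OD.loss
      ring

/-- `Good C K m`: the bound of `Bound` holds for all `s ≥ 1`, with `B = (s log m) ^ (K log log m)`.
1. For every `A` there is `K` such that for all large `x` at most `x / log ^ A x` of the `m ≤ x` are not good.
2. For `0 < θ < 1` there is `κ > 0` such that for all `A`, `U` there is `K` such that for all large `N` there is a set
   `E` of real numbers of measure at most `N ^ (1 - θ - κ)` with: for every real `y` with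
   `N ^ (1 - θ) ≤ y ≤ 2 N ^ (1 - θ)` outside `E` and for all `k ≤ N ^ θ`, with at most `N ^ θ / log ^ U N` exceptions,
   ALL `m` with `|m - k y| ≤ log ^ A N` are good.
3. For all `A` and `δ > 0` there is `K` such that for all integers `b k` with `b k ≥ exp (k ^ δ)` for large `k` and for
   almost every real `α > 0`, for all large `k`, ALL `m` with `|m - α b k| ≤ (log (b k)) ^ A` are good. -/
theorem result : ∃ C : ∀ q : ℕ, SimpleGraph (Fin q) → ℕ,
    (∀ A : ℕ, ∃ K x₀ : ℕ, ∀ x : ℕ, x₀ ≤ x →
      ({m : ℕ | 1 ≤ m ∧ m ≤ x ∧ ¬ Good C K m}.ncard : ℝ) ≤ x / Real.log x ^ A) ∧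
    (∀ θ : ℝ, 0 < θ → θ < 1 → ∃ κ : ℝ, 0 < κ ∧ ∀ A U : ℕ, ∃ K N₀ : ℕ, ∀ N : ℕ, N₀ ≤ N →
      ∃ E : Set ℝ, MeasurableSet E ∧ volume E ≤ ENNReal.ofReal ((N : ℝ) ^ (1 - θ - κ)) ∧
        ∀ y : ℝ, (N : ℝ) ^ (1 - θ) ≤ y → y ≤ 2 * (N : ℝ) ^ (1 - θ) → y ∉ E →
          (exceptions ((N : ℝ) ^ θ) y (Real.log N ^ A) (Good C K) : ℝ) ≤ (N : ℝ) ^ θ / Real.log N ^ U) ∧
    (∀ (A : ℕ) (δ : ℝ), 0 < δ → ∃ K : ℕ, ∀ b : ℕ → ℕ, (∀ᶠ k : ℕ in atTop, Real.exp ((k : ℝ) ^ δ) ≤ b k) →
      ∀ᵐ α : ℝ, 0 < α → ∀ᶠ k : ℕ in atTop, ∀ m : ℕ, |(m : ℝ) - α * b k| ≤ Real.log (b k) ^ A → Good C K m) := by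
  obtain ⟨C, h⟩ := few
  exact ⟨C, h, Pool.Agent.Q54.OD.multiples (Good C) h, Pool.Agent.Q54.OD.dilates (Good C) h⟩

end Pool.Agent.Results.MP_763321_co.OrdersInWindows
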